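import Pool.Agent.T9h88.IO.Asm2

/-!
# Growth estimate
-/

set_option autoImplicit false

namespace Pool.Agent.T9h67.IO.Grow

open Pool.Agent.T9h88.IO

theorem tw_succ' (b i : ℕ) : tw (i + 1) b = 2 ^ tw i b := by
  simp only [tw, Function.iterate_succ_apply']

theorem tw_add (D i b : ℕ) : tw (D + i) b = tw D (tw i b) := by
  simp only [tw, Function.iterate_add_apply]

theorem tw_mono' (i : ℕ) {b c : ℕ} (h : b ≤ c) : tw i b ≤ tw i c := by
  induction i with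
  | zero => exact h
  | succ i ih => rw [tw_succ', tw_succ']; exact Nat.pow_le_pow_right (by norm_num) ih

theorem le_tw' (b i : ℕ) : i + b ≤ tw i b := by
  induction i with
  | zero => simp [tw]
  | succ i ih =>
    have h1 := tw_succ' b i
    have h2 : tw i b < 2 ^ tw i b := Nat.lt_two_pow_self
    omega

theorem two_mul_tw (u i : ℕ) : 2 * tw (i + 1) u ≤ tw (i + 1) (u + 1) := by
  induction i with
  | zero =>
    rw [tw_succ', tw_succ']
    show 2 * 2 ^ u ≤ 2 ^ (u + 1)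
    rw [pow_succ]; omega
  | succ i ih =>
    rw [tw_succ' u (i + 1), tw_succ' (u + 1) (i + 1)]
    have h1 := le_tw' u (i + 1)
    calc 2 * 2 ^ tw (i + 1) u = 2 ^ (tw (i + 1) u + 1) := by rw [pow_succ]; ring
      _ ≤ 2 ^ tw (i + 1) (u + 1) := Nat.pow_le_pow_right (by norm_num) (by omega)

theorem sq_tw (u i : ℕ) (hi : 2 ≤ i) : tw i u * tw i u ≤ tw i (u + 1) := by
  obtain ⟨i, rfl⟩ : ∃ k, i = k + 1 + 1 := ⟨i - 2, by omega⟩
  rw [tw_succ' u (i + 1), tw_succ' (u + 1) (i + 1), ← pow_add]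
  exact Nat.pow_le_pow_right (by norm_num) (by have := two_mul_tw u i; omega)

theorem mul_tw (u i K : ℕ) (hi : 2 ≤ i) (hK : K ≤ tw i u) : K * tw i u ≤ tw i (u + 1) :=
  le_trans (Nat.mul_le_mul_right _ hK) (sq_tw u i hi)

/-- the bound for `pb` -/
theorem pb_bound (C₀ c C X Y : ℕ) (hc : c + 2 ≤ 2 ^ Y) (hX : X ≤ 2 ^ Y) (hY : 1 ≤ Y) :
    pb C (2 ^ X + 2 + 4 ^ (pb C₀ (c + 2 ^ Y) + 1)) ≤ 2 ^ 2 ^ ((C + 2 * C₀ + 8) * Y) := by
  set s := pb C₀ (c + 2 ^ Y) + 1 with hs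
  have hs1 : s ≤ 2 ^ ((Y + 1) * C₀ + 1) := by
    have h1 : c + 2 ^ Y + 2 ≤ 2 ^ (Y + 1) := by rw [pow_succ]; omega
    have h2 : (c + 2 ^ Y + 2) ^ C₀ ≤ 2 ^ ((Y + 1) * C₀) := by
      rw [pow_mul]; exact Nat.pow_le_pow_left h1 _
    have h3 : 1 ≤ 2 ^ ((Y + 1) * C₀) := Nat.one_le_two_pow
    rw [hs, pb, pow_succ]
    omega
  have hl : C * (X + 2 * s + 3) ≤ 2 ^ ((C + 2 * C₀ + 8) * Y) := by
    have hC : C ≤ 2 ^ C := (Nat.lt_two_pow_self (n := C)).le
    have hE : C + (Y + (Y + 1) * C₀ + 5) ≤ (C + 2 * C₀ + 8) * Y := by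
      nlinarith [Nat.mul_le_mul_left C hY, Nat.mul_le_mul_left C₀ hY]
    refine le_trans ?_ (Nat.pow_le_pow_right (by norm_num) hE)
    rw [pow_add]
    refine Nat.mul_le_mul hC ?_
    have h0 : 2 ^ Y ≤ 2 ^ (Y + (Y + 1) * C₀ + 2) := Nat.pow_le_pow_right (by norm_num) (by omega)
    have h1 : 2 * s ≤ 2 ^ (Y + (Y + 1) * C₀ + 2) := by
      calc 2 * s ≤ 2 * 2 ^ ((Y + 1) * C₀ + 1) := by omega
        _ = 2 ^ ((Y + 1) * C₀ + 2) := by ring
        _ ≤ _ := Nat.pow_le_pow_right (by norm_num) (by omega)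
    have h2 : 2 ^ 2 ≤ 2 ^ (Y + (Y + 1) * C₀ + 2) := Nat.pow_le_pow_right (by norm_num) (by omega)
    have h3 : 2 ^ (Y + (Y + 1) * C₀ + 5) = 8 * 2 ^ (Y + (Y + 1) * C₀ + 2) := by ring
    omega
  refine le_trans ?_ (Nat.pow_le_pow_right (by norm_num) hl)
  rw [pb, mul_comm C, pow_mul 2 (X + 2 * s + 3) C]
  refine Nat.pow_le_pow_left ?_ _
  have h1 : 2 ^ X ≤ 2 ^ (X + 2 * s + 1) := Nat.pow_le_pow_right (by norm_num) (by omega)
  have h2 : 4 ≤ 2 ^ (X + 2 * s + 1) := by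
    have : 2 ^ 2 ≤ 2 ^ (X + 2 * s + 1) := Nat.pow_le_pow_right (by norm_num) (by omega)
    simpa using this
  have h3 : 4 ^ s ≤ 2 ^ (X + 2 * s + 1) := by
    have : (4 : ℕ) ^ s = 2 ^ (2 * s) := by rw [pow_mul]; norm_num
    rw [this]
    exact Nat.pow_le_pow_right (by norm_num) (by omega)
  have h4 : 2 ^ (X + 2 * s + 3) = 4 * 2 ^ (X + 2 * s + 1) := by ring
  omega

theorem sq_le_two_pow (n : ℕ) (hn : 4 ≤ n) : n * n ≤ 2 ^ n := by
  induction n, hn using Nat.le_induction with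
  | base => norm_num
  | succ n hn ih =>
    rw [pow_succ]
    nlinarith

theorem grow1 : Grow1 := by
  intro C₀ c C K D
  refine ⟨C + 2 * C₀ + 8 + c + K + D + 4, fun j hj => ?_⟩
  refine ⟨tw (j + 1 - D) (j + 2), ?_, ?_, ?_⟩
  · have := le_tw' (j + 2) (j + 1 - D); omega
  · -- growth
    have hi : j + 1 - D = (j - D) + 1 := by omega
    have e1 : (tw (j + 1 - D) (j + 2)) ^ K ≤ tw (j + 1 - D) (j + 3) := by
      rw [hi, tw_succ', tw_succ', ← pow_mul]
      refine Nat.pow_le_pow_right (by norm_num) ?_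
      rw [mul_comm]
      exact mul_tw _ _ _ (by omega) (by have := le_tw' (j + 2) (j - D); omega)
    refine le_trans (tw_mono' D e1) ?_
    rw [← tw_add, show D + (j + 1 - D) = j + 1 by omega, tw_succ']
    refine Nat.pow_le_pow_right (by norm_num) ?_
    rw [Nat.le_div_iff_mul_le (by norm_num), mul_comm]
    refine le_trans (mul_tw (j + 3) j 4 (by omega) (by have := le_tw' (j + 3) j; omega)) ?_
    exact tw_mono' _ (by nlinarith)
  · set Y := tw j (j + 1) with hY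
    have hY0 : j + (j + 1) ≤ Y := le_tw' (j + 1) j
    have hx : xs j = 2 ^ tw j ((j + 1) * (j + 1)) := by rw [xs, tw_succ']
    have hy : ys j = 2 ^ Y := by rw [ys, tw_succ']
    have hX : tw j ((j + 1) * (j + 1)) ≤ 2 ^ Y := by
      rw [hY, ← tw_succ']
      rw [tw_add j 1 (j + 1)]
      exact tw_mono' _ (sq_le_two_pow _ (by omega))
    rw [hx, hy]
    have hlt : Y < 2 ^ Y := Nat.lt_two_pow_self
    refine le_trans (pb_bound C₀ c C _ Y (by omega) hX (by omega)) ?_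
    rw [tw_succ']
    refine Nat.pow_le_pow_right (by norm_num) ?_
    rw [← tw_add, show D + (j + 1 - D) = j + 1 by omega, tw_succ']
    refine Nat.pow_le_pow_right (by norm_num) ?_
    exact mul_tw _ _ _ (by omega) (by omega)

end Pool.Agent.T9h67.IO.Grow

namespace Pool.Agent.T9h67.IO

/-- (G1) -/
theorem grow1 : Pool.Agent.T9h88.IO.Grow1 := Grow.grow1

end Pool.Agent.T9h67.IO
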