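import Pool.Agent.T9h88.IO.Spec

/-!
# Derivations for the numeric clauses
-/

set_option autoImplicit false

namespace Pool.Agent.T9h67.IO

open Pool.Agent.TH672 (Fm Str upd num digits varStr LogK)
open Pool.Agent.TH636.BC
open Pool.Agent.T9h6.BC (sz cl)
open Pool.Agent.T9h88.IO

/-! ### Dyadic numbers -/

theorem num_concat (w : List Bool) (b : Bool) :
    num (w ++ [b]) = 2 * num w + if b then 2 else 1 := by
  simp only [num, List.foldl_append, List.foldl_cons, List.foldl_nil]

theorem digits_two (n : ℕ) (b : Bool) :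
    digits (2 * n + if b then 2 else 1) = digits n ++ [b] := by
  rw [digits]
  cases b
  · simp
  · have h2 : (2 * n + 1) / 2 = n := by omega
    simp [h2]

theorem digits_num (w : List Bool) : digits (num w) = w := by
  induction w using List.reverseRecOn with
  | nil => rw [digits]; simp [num]
  | append_singleton w b ih => rw [num_concat, digits_two, ih]

theorem digits_zero : digits 0 = [] := by rw [digits]; simp

theorem num_digits (n : ℕ) : num (digits n) = n := by
  induction n using Nat.strong_induction_on with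
  | _ n ih =>
    rcases Nat.eq_zero_or_pos n with h | h
    · subst h; rw [digits_zero]; rfl
    · rcases Nat.even_or_odd' n with ⟨m, hm | hm⟩
      · obtain ⟨k, rfl⟩ : ∃ k, m = k + 1 := ⟨m - 1, by omega⟩
        have e : n = 2 * k + if true then 2 else 1 := by simp; omega
        rw [e, digits_two, num_concat, ih k (by omega)]
      · have e : n = 2 * m + if false then 2 else 1 := by simp; omega
        rw [e, digits_two, num_concat, ih m (by omega)]

theorem app_nil (a : ℕ) : app a [] = a := by simp [app, num_digits]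

theorem app_num (w s : List Bool) : app (num w) s = num (w ++ s) := by
  rw [app, digits_num]

theorem app_app (a : ℕ) (s t : List Bool) : app (app a s) t = app a (s ++ t) := by
  rw [app, app, app, digits_num, List.append_assoc]

theorem app_concat (a : ℕ) (s : List Bool) (b : Bool) :
    app a (s ++ [b]) = 2 * app a s + if b then 2 else 1 := by
  rw [app, app, ← List.append_assoc, num_concat]

theorem num_le_append (w s : List Bool) : num w ≤ num (w ++ s) := by
  induction s using List.reverseRecOn with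
  | nil => simp
  | append_singleton s b ih =>
    rw [← List.append_assoc, num_concat]
    omega

theorem le_app (a : ℕ) (s : List Bool) : a ≤ app a s := by
  have := num_le_append (digits a) s
  rwa [num_digits] at this

theorem num_le_append' (w s : List Bool) : num s ≤ num (w ++ s) := by
  induction s using List.reverseRecOn with
  | nil => simp [num]
  | append_singleton s b ih =>
    rw [← List.append_assoc, num_concat, num_concat]
    omega

theorem length_le_num (w : List Bool) : w.length ≤ num w := by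
  induction w using List.reverseRecOn with
  | nil => simp
  | append_singleton s b ih =>
    rw [num_concat]
    simp only [List.length_append, List.length_cons, List.length_nil]
    split <;> omega

theorem length_le_app (a : ℕ) (s : List Bool) : s.length ≤ app a s := by
  have h := length_le_num (digits a ++ s)
  simp only [List.length_append] at h
  rw [app]
  omega

theorem rep_succ (n : ℕ) : rep (n + 1) = rep n ++ bs := by
  simp only [rep]
  rw [List.replicate_succ', List.flatten_append]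
  simp

theorem le_length_rep (n : ℕ) : n ≤ (rep n).length := by
  induction n with
  | zero => simp
  | succ n ih =>
    rw [rep_succ, List.length_append]
    have : 1 ≤ bs.length := by simp [bs]
    omega

/-! ### Steps -/

theorem stp {Cs : List Cl} {N : List At} {L : ℕ} (c : Cl) (hc : c ∈ Cs) (l : List ℕ)
    (h0 : 0 < L) (hl : ∀ x ∈ l, x < L)
    (hp : ∀ p ∈ c.prem, Der Cs N L (p.ren (fun x => l.getD x 0))) :
    Der Cs N L (c.concl.ren (fun x => l.getD x 0)) := by
  refine Der.step (c := c) _ hc ?_ hp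
  intro x
  show l.getD x 0 < L
  rw [List.getD_eq_getElem?_getD]
  rcases h : l[x]? with _ | y
  · simpa using h0
  · simpa using hl y (List.mem_of_getElem? h)

section
variable {P : Fml} {κ : ℕ} {Cs : List Cl} {N : List At} {ν : Tree → ℕ} {M K : ℕ}

theorem mem_num (hCs : ∀ c ∈ clsB P κ, c ∈ Cs) {c : Cl} (hc : c ∈ clNum P κ) : c ∈ Cs := by
  refine hCs c ?_
  simp only [clsB, List.mem_append]
  tauto

theorem mem_k (hCs : ∀ c ∈ clsB P κ, c ∈ Cs) {c : Cl} (hc : c ∈ kCl κ) : c ∈ Cs := by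
  refine hCs c ?_
  simp only [clsB, List.mem_append]
  tauto

theorem mem_app (hCs : ∀ c ∈ clsB P κ, c ∈ Cs) {τ : List Bool}
    (hτ : τ ∈ tags ++ [hd, bs, tlx 29, s1, s2 P]) : ∀ c ∈ appCl τ, c ∈ Cs := by
  intro c hc
  refine hCs c ?_
  have : c ∈ clApp P := List.mem_flatMap.2 ⟨τ, hτ, hc⟩
  simp only [clsB, List.mem_append]
  tauto

/-- the derivations that are used -/
structure Env (P : Fml) (κ : ℕ) (Cs : List Cl) (N : List At) (M : ℕ) : Prop where
  cls : ∀ c ∈ clsB P κ, c ∈ Cs
  fzero : At.zero 0 ∈ N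
  fsucc : ∀ i < M, At.succ i (i + 1) ∈ N
  flt : M < N.length
  fapp : ∀ (τ : List Bool), (∀ c ∈ appCl τ, c ∈ Cs) → ∀ b : ℕ, app b τ ≤ M →
    Der Cs N N.length (o2 (iApp τ) b (app b τ))
  fd0 : ∀ a : ℕ, 2 * a + 1 ≤ M → Der Cs N N.length (o2 iDb0 a (2 * a + 1))
  fd1 : ∀ a : ℕ, 2 * a + 2 ≤ M → Der Cs N N.length (o2 iDb1 a (2 * a + 2))
  fadd : ∀ a b : ℕ, a + b ≤ M → Der Cs N N.length (.add a b (a + b))

variable (E : Env P κ Cs N M)
include E

theorem Env.qz : Der Cs N N.length (.zero 0) := .base E.fzero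

theorem Env.qs {i : ℕ} (h : i + 1 ≤ M) : Der Cs N N.length (.succ i (i + 1)) :=
  .base (E.fsucc i h)

theorem Env.qpos : 0 < N.length := lt_of_le_of_lt (Nat.zero_le _) E.flt

theorem Env.qbd {i : ℕ} (h : i ≤ M) : i < N.length := lt_of_le_of_lt h E.flt


theorem Env.qrep (a : ℕ) : ∀ b : ℕ, app b (rep a) ≤ M →
    Der Cs N N.length (o3 iRep a b (app b (rep a))) := by
  induction a with
  | zero =>
    intro b hb
    have e : app b (rep 0) = b := by simp [rep, app_nil]
    rw [e] at hb ⊢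
    refine stp ⟨[.zero 0], o3 iRep 0 1 1⟩ (mem_num E.cls (by simp [clNum])) [0, b] E.qpos ?_ ?_
    · simp only [List.forall_mem_cons]
      exact ⟨E.qpos, E.qbd hb, by simp⟩
    · exact List.forall_mem_cons.2 ⟨E.qz, by simp⟩
  | succ a ih =>
    intro b hb
    have e : app b (rep (a + 1)) =
        app (app b (rep a)) bs := by
      rw [app_app, rep_succ]
    have h1 : a + 1 ≤ M := le_trans (le_trans (le_length_rep (a + 1)) (length_le_app b _)) hb
    rw [e] at hb ⊢
    have h2 : app b (rep a) ≤ M := le_trans (le_app _ _) hb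
    have h3 : b ≤ M := le_trans (le_app _ _) h2
    refine stp ⟨[o3 iRep 0 1 2, o2 (iApp bs) 2 3, .succ 0 4], o3 iRep 4 1 3⟩
      (mem_num E.cls (by simp [clNum])) [a, b, app b (rep a), app (app b (rep a)) bs, a + 1] E.qpos ?_ ?_
    · simp only [List.forall_mem_cons]
      exact ⟨E.qbd (by omega), E.qbd h3, E.qbd h2, E.qbd hb, E.qbd h1, by simp⟩
    · exact List.forall_mem_cons.2 ⟨ih b h2, List.forall_mem_cons.2
        ⟨E.fapp bs (mem_app E.cls (by simp)) _ hb, List.forall_mem_cons.2 ⟨E.qs h1, by simp⟩⟩⟩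

theorem Env.qcat (b : ℕ) : ∀ a : ℕ, app a (digits b) ≤ M →
    Der Cs N N.length (o3 iCat a b (app a (digits b))) := by
  induction b using Nat.strong_induction_on with
  | _ b ih =>
    intro a ha
    have hbM : b ≤ M := by
      have := num_le_append' (digits a) (digits b)
      rw [num_digits] at this
      exact le_trans this ha
    rcases Nat.eq_zero_or_pos b with h | h
    · subst h
      rw [digits_zero, app_nil] at ha ⊢
      refine stp ⟨[.zero 1], o3 iCat 0 1 0⟩ (mem_num E.cls (by simp [clNum])) [a, 0] E.qpos ?_ ?_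
      · simp only [List.forall_mem_cons]
        exact ⟨E.qbd ha, E.qpos, by simp⟩
      · exact List.forall_mem_cons.2 ⟨E.qz, by simp⟩
    · rcases Nat.even_or_odd' b with ⟨m, hm | hm⟩
      · obtain ⟨k, rfl⟩ : ∃ k, m = k + 1 := ⟨m - 1, by omega⟩
        have e : b = 2 * k + 2 := by omega
        have e1 : digits b = digits k ++ [true] := by
          have := digits_two k true
          simp only [if_true] at this
          rw [e, this]
        have e2 : app a (digits b) =
            2 * app a (digits k) + 2 := by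
          rw [e1, app_concat]; simp
        rw [e2] at ha ⊢
        have h2 : app a (digits k) ≤ M := by omega
        have h3 : a ≤ M := le_trans (le_app _ _) h2
        rw [e]
        rw [e] at hbM
        refine stp ⟨[o3 iCat 0 1 2, o2 iDb1 1 3, o2 iDb1 2 4], o3 iCat 0 3 4⟩
          (mem_num E.cls (by simp [clNum])) [a, k, app a (digits k), 2 * k + 2, 2 * app a (digits k) + 2] E.qpos ?_ ?_
        · simp only [List.forall_mem_cons]
          exact ⟨E.qbd h3, E.qbd (by omega), E.qbd h2, E.qbd hbM, E.qbd ha, by simp⟩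
        · exact List.forall_mem_cons.2 ⟨ih k (by omega) a h2, List.forall_mem_cons.2
            ⟨E.fd1 k hbM, List.forall_mem_cons.2 ⟨E.fd1 _ ha, by simp⟩⟩⟩
      · have e1 : digits b = digits m ++ [false] := by
          have := digits_two m false
          simp only [Bool.false_eq_true, if_false] at this
          rw [hm, this]
        have e2 : app a (digits b) =
            2 * app a (digits m) + 1 := by
          rw [e1, app_concat]; simp
        rw [e2] at ha ⊢
        have h2 : app a (digits m) ≤ M := by omega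
        have h3 : a ≤ M := le_trans (le_app _ _) h2
        rw [hm]
        rw [hm] at hbM
        refine stp ⟨[o3 iCat 0 1 2, o2 iDb0 1 3, o2 iDb0 2 4], o3 iCat 0 3 4⟩
          (mem_num E.cls (by simp [clNum])) [a, m, app a (digits m), 2 * m + 1, 2 * app a (digits m) + 1] E.qpos ?_ ?_
        · simp only [List.forall_mem_cons]
          exact ⟨E.qbd h3, E.qbd (by omega), E.qbd h2, E.qbd hbM, E.qbd ha, by simp⟩
        · exact List.forall_mem_cons.2 ⟨ih m (by omega) a h2, List.forall_mem_cons.2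
            ⟨E.fd0 m hbM, List.forall_mem_cons.2 ⟨E.fd0 _ ha, by simp⟩⟩⟩

theorem Env.qmul (a : ℕ) (ha : a ≤ M) (b : ℕ) (hb : b ≤ M) (h : a * b ≤ M) :
    Der Cs N N.length (.mul a b (a * b)) := by
  induction b with
  | zero =>
    refine stp ⟨[.zero 1], .mul 0 1 1⟩ (mem_num E.cls (by simp [clNum])) [a, 0] E.qpos ?_ ?_
    · simp only [List.forall_mem_cons]
      exact ⟨E.qbd ha, E.qpos, by simp⟩
    · exact List.forall_mem_cons.2 ⟨E.qz, by simp⟩
  | succ b ih =>
    have e : a * (b + 1) = a * b + a := by ring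
    rw [e] at h ⊢
    refine stp ⟨[.succ 1 2, .mul 0 1 3, .add 3 0 4], .mul 0 2 4⟩
      (mem_num E.cls (by simp [clNum])) [a, b, b + 1, a * b, a * b + a] E.qpos ?_ ?_
    · simp only [List.forall_mem_cons]
      exact ⟨E.qbd ha, E.qbd (by omega), E.qbd hb, E.qbd (by omega), E.qbd h, by simp⟩
    · exact List.forall_mem_cons.2 ⟨E.qs hb, List.forall_mem_cons.2
        ⟨ih (by omega) (by omega), List.forall_mem_cons.2 ⟨E.fadd _ _ h, by simp⟩⟩⟩

theorem Env.qe (a : ℕ) (h : 2 ^ a ≤ M) : Der Cs N N.length (o2 iE a (2 ^ a)) := by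
  induction a with
  | zero =>
    refine stp ⟨[.zero 0, .succ 0 1], o2 iE 0 1⟩ (mem_num E.cls (by simp [clNum])) [0, 1]
      E.qpos ?_ ?_
    · simp only [List.forall_mem_cons]
      exact ⟨E.qpos, E.qbd h, by simp⟩
    · exact List.forall_mem_cons.2 ⟨E.qz, List.forall_mem_cons.2 ⟨E.qs h, by simp⟩⟩
  | succ a ih =>
    have e : 2 ^ (a + 1) = 2 ^ a + 2 ^ a := by ring
    have h4 : a + 1 ≤ M := le_trans (Nat.lt_two_pow_self).le h
    rw [e] at h ⊢
    refine stp ⟨[o2 iE 0 1, .succ 0 2, .add 1 1 3], o2 iE 2 3⟩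
      (mem_num E.cls (by simp [clNum])) [a, 2 ^ a, a + 1, 2 ^ a + 2 ^ a] E.qpos ?_ ?_
    · simp only [List.forall_mem_cons]
      exact ⟨E.qbd (by omega), E.qbd (by omega), E.qbd h4, E.qbd h, by simp⟩
    · exact List.forall_mem_cons.2 ⟨ih (by omega), List.forall_mem_cons.2
        ⟨E.qs h4, List.forall_mem_cons.2 ⟨E.fadd _ _ h, by simp⟩⟩⟩

omit E in
theorem le_tw (b : ℕ) (i : ℕ) : i + b ≤ tw i b := by
  induction i with
  | zero => simp [tw]
  | succ i ih =>
    have h1 : tw (i + 1) b = 2 ^ tw i b := by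
      simp only [tw, Function.iterate_succ_apply']
    have h2 : tw i b < 2 ^ tw i b := Nat.lt_two_pow_self
    omega

omit E in
theorem tw_succ (b : ℕ) (i : ℕ) : tw (i + 1) b = 2 ^ tw i b := by
  simp only [tw, Function.iterate_succ_apply']

omit E in
theorem tw_mono (i : ℕ) {b c : ℕ} (h : b ≤ c) : tw i b ≤ tw i c := by
  induction i with
  | zero => exact h
  | succ i ih => rw [tw_succ, tw_succ]; exact Nat.pow_le_pow_right (by norm_num) ih

theorem Env.qit (b : ℕ) (i : ℕ) (h : tw i b ≤ M) :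
    Der Cs N N.length (o3 iIt i b (tw i b)) := by
  induction i with
  | zero =>
    have h' : b ≤ M := h
    refine stp ⟨[.zero 0], o3 iIt 0 1 1⟩ (mem_num E.cls (by simp [clNum])) [0, b] E.qpos ?_ ?_
    · simp only [List.forall_mem_cons]
      exact ⟨E.qpos, E.qbd h', by simp⟩
    · exact List.forall_mem_cons.2 ⟨E.qz, by simp⟩
  | succ i ih =>
    have h1 := tw_succ b i
    have h2 : tw i b < 2 ^ tw i b := Nat.lt_two_pow_self
    have h3 := le_tw b (i + 1)
    have h4 : tw i b ≤ M := by omega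
    have p1 := ih h4
    have p2 := E.qe (tw i b) (by rw [← h1]; exact h)
    rw [← h1] at p2
    have p3 := E.qs (i := i) (by omega)
    refine stp ⟨[o3 iIt 0 1 2, o2 iE 2 3, .succ 0 4], o3 iIt 4 1 3⟩
      (mem_num E.cls (by simp [clNum])) [i, b, tw i b, tw (i + 1) b, i + 1] E.qpos ?_ ?_
    · simp only [List.forall_mem_cons]
      exact ⟨E.qbd (by omega), E.qbd (by omega), E.qbd h4, E.qbd h, E.qbd (by omega), by simp⟩
    · exact List.forall_mem_cons.2 ⟨p1, List.forall_mem_cons.2 ⟨p2, List.forall_mem_cons.2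
        ⟨p3, by simp⟩⟩⟩

omit E in
theorem ys_le_xs (j : ℕ) : ys j ≤ xs j := tw_mono _ (Nat.le_mul_self _)

theorem Env.qsc (j : ℕ) (h : xs j ≤ M) :
    Der Cs N N.length (o3 iSc (j + 1) (xs j) (ys j)) := by
  have h1 := le_tw ((j + 1) * (j + 1)) (j + 1)
  have h1' : j + 1 + (j + 1) * (j + 1) ≤ M := le_trans h1 h
  have h2 : ys j ≤ M := le_trans (ys_le_xs j) h
  have p1 := E.qs (i := j) (by omega)
  have p2 := E.qmul (j + 1) (by omega) (j + 1) (by omega) (by omega)
  have p3 := E.qit ((j + 1) * (j + 1)) (j + 1) h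
  have p4 := E.qit (j + 1) (j + 1) h2
  refine stp ⟨[.succ 4 0, .mul 0 0 1, o3 iIt 0 1 2, o3 iIt 0 0 3], o3 iSc 0 2 3⟩
    (mem_num E.cls (by simp [clNum])) [j + 1, (j + 1) * (j + 1), xs j, ys j, j] E.qpos ?_ ?_
  · simp only [List.forall_mem_cons]
    exact ⟨E.qbd (by omega), E.qbd (by omega), E.qbd h, E.qbd h2, E.qbd (by omega), by simp⟩
  · exact List.forall_mem_cons.2 ⟨p1, List.forall_mem_cons.2
      ⟨p2, List.forall_mem_cons.2 ⟨p3, List.forall_mem_cons.2 ⟨p4, by simp⟩⟩⟩⟩

theorem Env.qsg (j : ℕ) (h : xs j ≤ M) : Der Cs N N.length (o2 iSG (xs j) (ys j)) := by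
  have h1 := le_tw ((j + 1) * (j + 1)) (j + 1)
  have h1' : j + 1 + (j + 1) * (j + 1) ≤ M := le_trans h1 h
  have h2 : ys j ≤ M := le_trans (ys_le_xs j) h
  refine stp ⟨[o3 iSc 0 1 2], o2 iSG 1 2⟩
    (mem_num E.cls (by simp [clNum])) [j + 1, xs j, ys j] E.qpos ?_ ?_
  · simp only [List.forall_mem_cons]
    exact ⟨E.qbd (by omega), E.qbd h, E.qbd h2, by simp⟩
  · exact List.forall_mem_cons.2 ⟨E.qsc j h, by simp⟩

omit E in
theorem xs_le_succ (j : ℕ) : xs j ≤ xs (j + 1) := by
  have h1 : xs j ≤ tw (j + 1) ((j + 1 + 1) * (j + 1 + 1)) :=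
    tw_mono _ (Nat.mul_le_mul (by omega) (by omega))
  refine le_trans h1 ?_
  rw [xs, tw_succ _ (j + 1)]
  exact (Nat.lt_two_pow_self).le

theorem Env.qss (j : ℕ) (h : xs (j + 1) ≤ M) :
    Der Cs N N.length (o2 iSS (xs j) (xs (j + 1))) := by
  have h0 : xs j ≤ M := le_trans (xs_le_succ j) h
  have h1 := le_tw ((j + 1 + 1) * (j + 1 + 1)) (j + 1 + 1)
  have h1' : j + 1 + 1 + (j + 1 + 1) * (j + 1 + 1) ≤ M := le_trans h1 h
  have h2 : ys j ≤ M := le_trans (ys_le_xs j) h0
  have h3 : ys (j + 1) ≤ M := le_trans (ys_le_xs _) h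
  have p3 := E.qs (i := j + 1) (by omega)
  refine stp ⟨[o3 iSc 0 1 2, .succ 0 3, o3 iSc 3 4 5], o2 iSS 1 4⟩
    (mem_num E.cls (by simp [clNum]))
    [j + 1, xs j, ys j, j + 1 + 1, xs (j + 1), ys (j + 1)] E.qpos ?_ ?_
  · simp only [List.forall_mem_cons]
    exact ⟨E.qbd (by omega), E.qbd h0, E.qbd h2, E.qbd (by omega), E.qbd h,
      E.qbd h3, by simp⟩
  · exact List.forall_mem_cons.2 ⟨E.qsc j h0, List.forall_mem_cons.2 ⟨p3,
      List.forall_mem_cons.2 ⟨E.qsc (j + 1) h, by simp⟩⟩⟩

theorem Env.qltD (a b : ℕ) (hab : a < b) (h : b ≤ M) : Der Cs N N.length (o2 iLt a b) := by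
  induction b with
  | zero => omega
  | succ b ih =>
    rcases Nat.lt_succ_iff_lt_or_eq.1 hab with h1 | rfl
    · refine stp ⟨[o2 iLt 0 1, .succ 1 2], o2 iLt 0 2⟩ (mem_num E.cls (by simp [clNum]))
        [a, b, b + 1] E.qpos ?_ ?_
      · simp only [List.forall_mem_cons]
        exact ⟨E.qbd (by omega), E.qbd (by omega), E.qbd h, by simp⟩
      · exact List.forall_mem_cons.2 ⟨ih h1 (by omega), List.forall_mem_cons.2 ⟨E.qs h, by simp⟩⟩
    · refine stp ⟨[.succ 0 1], o2 iLt 0 1⟩ (mem_num E.cls (by simp [clNum]))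
        [a, a + 1] E.qpos ?_ ?_
      · simp only [List.forall_mem_cons]
        exact ⟨E.qbd (by omega), E.qbd h, by simp⟩
      · exact List.forall_mem_cons.2 ⟨E.qs h, by simp⟩

theorem Env.qleD (a b : ℕ) (hab : a ≤ b) (h : b ≤ M) : Der Cs N N.length (o2 iLe a b) := by
  induction b with
  | zero =>
    obtain rfl : a = 0 := by omega
    refine stp ⟨[], o2 iLe 0 0⟩ (mem_num E.cls (by simp [clNum])) [0] E.qpos ?_ ?_
    · simp only [List.forall_mem_cons]
      exact ⟨E.qpos, by simp⟩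
    · simp
  | succ b ih =>
    rcases Nat.lt_or_eq_of_le hab with h1 | rfl
    · refine stp ⟨[o2 iLe 0 1, .succ 1 2], o2 iLe 0 2⟩ (mem_num E.cls (by simp [clNum]))
        [a, b, b + 1] E.qpos ?_ ?_
      · simp only [List.forall_mem_cons]
        exact ⟨E.qbd (by omega), E.qbd (by omega), E.qbd h, by simp⟩
      · exact List.forall_mem_cons.2 ⟨ih (by omega) (by omega),
          List.forall_mem_cons.2 ⟨E.qs h, by simp⟩⟩
    · refine stp ⟨[], o2 iLe 0 0⟩ (mem_num E.cls (by simp [clNum])) [b + 1] E.qpos ?_ ?_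
      · simp only [List.forall_mem_cons]
        exact ⟨E.qbd h, by simp⟩
      · simp

theorem Env.qk (j : ℕ) (hj : j ≤ κ) (h : j ≤ M) : Der Cs N N.length (o1 (iK j) j) := by
  induction j with
  | zero =>
    refine stp ⟨[.zero 0], o1 (iK 0) 0⟩ (mem_k E.cls (by simp [kCl])) [0] E.qpos ?_ ?_
    · simp only [List.forall_mem_cons]
      exact ⟨E.qpos, by simp⟩
    · exact List.forall_mem_cons.2 ⟨E.qz, by simp⟩
  | succ j ih =>
    refine stp ⟨[o1 (iK j) 0, .succ 0 1], o1 (iK (j + 1)) 1⟩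
      (mem_k E.cls ?_) [j, j + 1] E.qpos ?_ ?_
    · refine List.mem_cons_of_mem _ (List.mem_map.2 ⟨j, List.mem_range.2 (by omega), rfl⟩)
    · simp only [List.forall_mem_cons]
      exact ⟨E.qbd (by omega), E.qbd h, by simp⟩
    · exact List.forall_mem_cons.2 ⟨ih (by omega) (by omega),
        List.forall_mem_cons.2 ⟨E.qs h, by simp⟩⟩

theorem Env.qlk (a n : ℕ) (hn : κ ≤ n) (ha : a ≤ n) (h : n ^ 4 ≤ M) :
    Der Cs N N.length (o2 iLk a (n ^ 4)) := by
  have e : n ^ 4 = n * n * (n * n) := by ring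
  rw [e] at h ⊢
  have h1 : n ≤ n * n := Nat.le_mul_self n
  have h2 : n * n ≤ n * n * (n * n) := Nat.le_mul_self _
  have p1 := E.qmul n (by omega) n (by omega) (by omega)
  have p2 := E.qmul (n * n) (by omega) (n * n) (by omega) h
  have p3 := E.qleD _ _ hn (by omega)
  have q : Der Cs N N.length (o2 iLk n (n * n * (n * n))) := by
    refine stp ⟨[.mul 0 0 1, .mul 1 1 2, o1 (iK κ) 3, o2 iLe 3 0], o2 iLk 0 2⟩
      (mem_num E.cls (by simp [clNum])) [n, n * n, n * n * (n * n), κ] E.qpos ?_ ?_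
    · simp only [List.forall_mem_cons]
      exact ⟨E.qbd (by omega), E.qbd (by omega), E.qbd h, E.qbd (by omega), by simp⟩
    · exact List.forall_mem_cons.2 ⟨p1,
        List.forall_mem_cons.2 ⟨p2, List.forall_mem_cons.2
          ⟨E.qk κ le_rfl (by omega), List.forall_mem_cons.2 ⟨p3, by simp⟩⟩⟩⟩
  have p4 := E.qleD _ _ ha (by omega)
  refine stp ⟨[o2 iLe 0 1, o2 iLk 1 2], o2 iLk 0 2⟩
    (mem_num E.cls (by simp [clNum])) [a, n, n * n * (n * n)] E.qpos ?_ ?_
  · simp only [List.forall_mem_cons]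
    exact ⟨E.qbd (by omega), E.qbd (by omega), E.qbd h, by simp⟩
  · exact List.forall_mem_cons.2 ⟨p4, List.forall_mem_cons.2 ⟨q, by simp⟩⟩

theorem Env.qaf (z : ℕ) (h : fA z ≤ M) : Der Cs N N.length (o2 iAf z (fA z)) := by
  have e : fA z = app (app (app (app 0 hd) (rep z)) (tlx 29)) (digits z) := by
    rw [app_app, app_app, app_app, app, digits_zero, List.nil_append, fA]
    simp only [List.append_assoc]
  rw [e] at h ⊢
  have h1 := le_trans (le_app _ _) h
  have h2 := le_trans (le_app _ _) h1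
  have h3 := le_trans (le_app _ _) h2
  have hz : z ≤ M := by
    refine le_trans ?_ h
    have := num_le_append' (digits (app (app (app 0 hd) (rep z)) (tlx 29))) (digits z)
    rwa [num_digits] at this
  have p1 := E.fapp hd (mem_app E.cls (by simp)) 0 h3
  have p2 := E.qrep z _ h2
  have p3 := E.fapp (tlx 29) (mem_app E.cls (by simp)) _ h1
  have p4 := E.qcat z _ h
  refine stp ⟨[.zero 0, o2 (iApp hd) 0 1, o3 iRep 2 1 3, o2 (iApp (tlx 29)) 3 4, o3 iCat 4 2 5],
    o2 iAf 2 5⟩ (mem_num E.cls (by simp [clNum])) [0, app 0 hd, z, app (app 0 hd) (rep z),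
      app (app (app 0 hd) (rep z)) (tlx 29),
      app (app (app (app 0 hd) (rep z)) (tlx 29)) (digits z)] E.qpos ?_ ?_
  · simp only [List.forall_mem_cons]
    exact ⟨E.qpos, E.qbd h3, E.qbd hz, E.qbd h2, E.qbd h1, E.qbd h, by simp⟩
  · exact List.forall_mem_cons.2 ⟨E.qz, List.forall_mem_cons.2 ⟨p1, List.forall_mem_cons.2
      ⟨p2, List.forall_mem_cons.2 ⟨p3, List.forall_mem_cons.2 ⟨p4, by simp⟩⟩⟩⟩⟩

theorem Env.qd2 (z : ℕ) (h : fT P z ≤ M) : Der Cs N N.length (o2 iD2 z (fT P z)) := by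
  have e : fT P z = app (app (app (app 0 s1) (rep (fA z))) (s2 P)) (digits (fA z)) := by
    rw [app_app, app_app, app_app, app, digits_zero, List.nil_append, fT]
    simp only [List.append_assoc]
  rw [e] at h ⊢
  have h1 := le_trans (le_app _ _) h
  have h2 := le_trans (le_app _ _) h1
  have h3 := le_trans (le_app _ _) h2
  have hz : fA z ≤ M := by
    refine le_trans ?_ h
    have := num_le_append' (digits (app (app (app 0 s1) (rep (fA z))) (s2 P))) (digits (fA z))
    rwa [num_digits] at this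
  have hz' : z ≤ M := by
    refine le_trans ?_ hz
    have := num_le_append' (hd ++ rep z ++ tlx 29) (digits z)
    rwa [num_digits] at this
  have p0 := E.qaf z hz
  have p1 := E.fapp s1 (mem_app E.cls (by simp)) 0 h3
  have p2 := E.qrep (fA z) _ h2
  have p3 := E.fapp (s2 P) (mem_app E.cls (by simp)) _ h1
  have p4 := E.qcat (fA z) _ h
  refine stp ⟨[.zero 0, o2 (iApp s1) 0 1, o2 iAf 2 3, o3 iRep 3 1 4, o2 (iApp (s2 P)) 4 5,
    o3 iCat 5 3 6], o2 iD2 2 6⟩ (mem_num E.cls (by simp [clNum])) [0, app 0 s1, z, fA z,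
      app (app 0 s1) (rep (fA z)), app (app (app 0 s1) (rep (fA z))) (s2 P),
      app (app (app (app 0 s1) (rep (fA z))) (s2 P)) (digits (fA z))] E.qpos ?_ ?_
  · simp only [List.forall_mem_cons]
    exact ⟨E.qpos, E.qbd h3, E.qbd hz', E.qbd hz, E.qbd h2, E.qbd h1, E.qbd h, by simp⟩
  · exact List.forall_mem_cons.2 ⟨E.qz, List.forall_mem_cons.2 ⟨p1, List.forall_mem_cons.2
      ⟨p0, List.forall_mem_cons.2 ⟨p2, List.forall_mem_cons.2 ⟨p3, List.forall_mem_cons.2
        ⟨p4, by simp⟩⟩⟩⟩⟩⟩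

theorem Env.qd1 (σ : List Bool) (v m : ℕ) (hσ : ∀ c ∈ clsD σ, c ∈ Cs) (h : fZ σ v m ≤ M) :
    Der Cs N N.length (o3 iD1 v m (fZ σ v m)) := by
  have e : fZ σ v m = app (app (app (app (app 0 hd) (rep m)) (tlx 28 ++ hd)) (rep v))
      (tlx 27 ++ σ) := by
    rw [app_app, app_app, app_app, app_app, app, digits_zero, List.nil_append, fZ]
    simp only [List.append_assoc]
  rw [e] at h ⊢
  have h1 := le_trans (le_app _ _) h
  have h2 := le_trans (le_app _ _) h1
  have h3 := le_trans (le_app _ _) h2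
  have h4 := le_trans (le_app _ _) h3
  have hv : v ≤ M := le_trans (le_trans (le_length_rep v) (length_le_app _ _)) h1
  have hm : m ≤ M := le_trans (le_trans (le_length_rep m) (length_le_app _ _)) h3
  have p1 := E.fapp hd (mem_app E.cls (by simp)) 0 h4
  have p2 := E.qrep m _ h3
  have p3 := E.fapp (tlx 28 ++ hd) (fun c hc => hσ c (by
    rw [clsD]
    exact List.mem_cons_of_mem _ (List.mem_append_left _ hc))) _ h2
  have p4 := E.qrep v _ h1
  have p5 := E.fapp (tlx 27 ++ σ) (fun c hc => hσ c (by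
    rw [clsD]
    exact List.mem_cons_of_mem _ (List.mem_append_right _ hc))) _ h
  refine stp ⟨[.zero 0, o2 (iApp hd) 0 1, o3 iRep 3 1 4, o2 (iApp (tlx 28 ++ hd)) 4 5,
    o3 iRep 2 5 6, o2 (iApp (tlx 27 ++ σ)) 6 7], o3 iD1 2 3 7⟩
    (hσ _ (by rw [clsD]; exact List.mem_cons_self)) [0, app 0 hd, v, m,
      app (app 0 hd) (rep m), app (app (app 0 hd) (rep m)) (tlx 28 ++ hd),
      app (app (app (app 0 hd) (rep m)) (tlx 28 ++ hd)) (rep v),
      app (app (app (app (app 0 hd) (rep m)) (tlx 28 ++ hd)) (rep v)) (tlx 27 ++ σ)] E.qpos ?_ ?_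
  · simp only [List.forall_mem_cons]
    exact ⟨E.qpos, E.qbd h4, E.qbd hv, E.qbd hm, E.qbd h3, E.qbd h2, E.qbd h1, E.qbd h, by simp⟩
  · exact List.forall_mem_cons.2 ⟨E.qz, List.forall_mem_cons.2 ⟨p1, List.forall_mem_cons.2
      ⟨p2, List.forall_mem_cons.2 ⟨p3, List.forall_mem_cons.2 ⟨p4, List.forall_mem_cons.2
        ⟨p5, by simp⟩⟩⟩⟩⟩⟩

end

/-- (S10) derivations for numbers -/
theorem sNum : Pool.Agent.T9h88.IO.SNum := by
  intro hS P κ Cs N ν M K hCs hctx
  obtain ⟨a1, a2, a3, a4, -⟩ := hS P κ Cs N ν M K hCs hctx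
  have E : Env P κ Cs N M := ⟨hCs, hctx.zero, hctx.succ, hctx.numlt, a1, a2, a3, a4⟩
  exact ⟨E.qaf, E.qd2, E.qd1, E.qsg, E.qss, E.qltD, E.qleD, E.qlk⟩

end Pool.Agent.T9h67.IO
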